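import Mathlib

set_option autoImplicit false
open Filter Topology

namespace Pool.Agent.Results.MP_cc4673_an.AtomNotCoord

/-- `h` has the L-property on the sequence `z`. -/
def LProp {n : ℕ} (h : EuclideanSpace ℂ (Fin n) → ℂ) (z : ℕ → EuclideanSpace ℂ (Fin n)) : Prop :=
  ∀ K : Set ℂ, IsCompact K → K ⊆ Set.range h → {k | h (z k) ∈ K}.Finite

/-- `(f, g)` is an ordered L-pair. -/
def LPair {n : ℕ} (f g : EuclideanSpace ℂ (Fin n) → ℂ) : Prop :=
  ∀ z : ℕ → EuclideanSpace ℂ (Fin n), Tendsto (fun k => ‖z k‖) atTop atTop →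
    LProp f z → LProp g z

/-- `α` is an L-atom. -/
def LAtom {n : ℕ} (α : EuclideanSpace ℂ (Fin n) → ℂ) : Prop :=
  Differentiable ℂ α ∧ (¬ ∃ c, ∀ z, α z = c) ∧
    ∀ f : EuclideanSpace ℂ (Fin n) → ℂ, Differentiable ℂ f → LPair f α →
      ∃ φ : ℂ → ℂ, DifferentiableOn ℂ φ (Set.range α) ∧ f = φ ∘ α

abbrev E : Type := EuclideanSpace ℂ (Fin 2)

noncomputable def pt (a b : ℂ) : E := EuclideanSpace.single 0 a + EuclideanSpace.single 1 b

@[simp] lemma pt0 (a b : ℂ) : pt a b 0 = a := by simp [pt]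
@[simp] lemma pt1 (a b : ℂ) : pt a b 1 = b := by simp [pt]

lemma pt_eq (z : E) : pt (z 0) (z 1) = z := by
  ext i; fin_cases i <;> simp

lemma pt_diff {a b : ℂ → ℂ} (ha : Differentiable ℂ a) (hb : Differentiable ℂ b) :
    Differentiable ℂ fun w => pt (a w) (b w) := by
  have : (fun w => pt (a w) (b w)) = fun w => a w • (EuclideanSpace.single 0 1 : E) +
      b w • (EuclideanSpace.single 1 1 : E) := by
    funext w; ext i; fin_cases i <;> simp
  rw [this]
  exact (ha.smul_const _).add (hb.smul_const _)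

lemma const_of_pair {f : E → ℂ} (hf : Differentiable ℂ f) (hp : LPair f fun z => z 0 * z 1)
    {γ : ℂ → E} (hγ : Differentiable ℂ γ) (c : ℂ) (hc : ∀ w, γ w 0 * γ w 1 = c) (u v : ℂ) :
    f (γ u) = f (γ v) := by
  refine Differentiable.apply_eq_apply_of_bounded (hf.comp hγ) ?_ u v
  by_contra hb
  rw [isBounded_iff_forall_norm_le] at hb
  push Not at hb
  have h1 : ∀ k : ℕ, ∃ w, (k : ℝ) < ‖f (γ w)‖ := fun k => by
    obtain ⟨_, ⟨w, rfl⟩, h⟩ := hb k
    exact ⟨w, h⟩
  choose w hw using h1
  have h2 : Tendsto (fun k => ‖f (γ (w k))‖) atTop atTop :=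
    tendsto_atTop_mono (fun k => (hw k).le) tendsto_natCast_atTop_atTop
  have h3 : Tendsto (fun k => ‖γ (w k)‖) atTop atTop := by
    rw [tendsto_atTop]
    intro R
    obtain ⟨M, hM⟩ := (isCompact_closedBall (0 : E) R).exists_bound_of_continuousOn
      hf.continuous.continuousOn
    filter_upwards [h2.eventually_gt_atTop M] with k hk
    by_contra hc
    exact absurd (hM _ (mem_closedBall_zero_iff.2 (not_le.1 hc).le)) (not_le.2 hk)
  have h4 := hp _ h3 (fun K hK _ => by
    obtain ⟨M, hM⟩ := isBounded_iff_forall_norm_le.1 hK.isBounded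
    obtain ⟨N, hN⟩ := eventually_atTop.1 (h2.eventually_gt_atTop M)
    refine (Set.finite_lt_nat N).subset fun k hk => ?_
    by_contra hc
    exact absurd (hM _ hk) (not_le.2 (hN k (not_lt.1 hc)))) {c} isCompact_singleton
    (Set.singleton_subset_iff.2 ⟨γ 0, hc 0⟩)
  refine Set.infinite_univ (α := ℕ) (h4.subset fun k _ => ?_)
  exact hc _

lemma near {g : ℂ → ℂ} (hg : Differentiable ℂ g) (hi : Function.Injective g) :
    Set.range g ∈ 𝓝 (g 0) := by
  rcases (hg.analyticAt 0).eventually_constant_or_nhds_le_map_nhds with h | h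
  · exfalso
    obtain ⟨w, hw, hw0⟩ := ((h.filter_mono (nhdsWithin_le_nhds (s := {0}ᶜ))).and
      self_mem_nhdsWithin).exists
    exact hw0 (hi hw)
  · exact h range_mem_map

theorem result : ∃ α : EuclideanSpace ℂ (Fin 2) → ℂ, LAtom α ∧
    ¬ ∃ F : EuclideanSpace ℂ (Fin 2) → EuclideanSpace ℂ (Fin 2),
      Differentiable ℂ F ∧ Function.Bijective F ∧ ∀ z, F z 0 = α z := by
  have hd : ∀ i : Fin 2, Differentiable ℂ fun z : E => z i := fun i =>
    (EuclideanSpace.proj i : E →L[ℂ] ℂ).differentiable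
  refine ⟨fun z => z 0 * z 1, ⟨(hd 0).mul (hd 1), ?_, fun f hf hp => ?_⟩, ?_⟩
  · rintro ⟨c, hc⟩
    have h1 := hc (pt 0 0)
    have h2 := hc (pt 1 1)
    simp only [pt0, pt1, mul_zero, mul_one] at h1 h2
    exact zero_ne_one (h1.trans h2.symm)
  · refine ⟨fun c => f (pt 1 c),
      (hf.comp (pt_diff (differentiable_const _) differentiable_id)).differentiableOn, ?_⟩
    funext z
    rw [← pt_eq z]
    simp only [Function.comp, pt0, pt1]
    by_cases h0 : z 0 = 0
    · have a := const_of_pair hf hp (pt_diff (differentiable_const 0) differentiable_id) 0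
        (by simp) (z 1) 0
      have b := const_of_pair hf hp (pt_diff differentiable_id (differentiable_const 0)) 0
        (by simp) 0 1
      simp only [id] at a b
      rw [h0, zero_mul, a, b]
    · have a := const_of_pair hf hp (γ := fun w => pt (Complex.exp w) (z 0 * z 1 * Complex.exp (-w)))
        (pt_diff (by fun_prop) (by fun_prop)) (z 0 * z 1) (fun w => by
          simp only [pt0, pt1, Complex.exp_neg]; field_simp) (Complex.log (z 0)) 0
      simp only [Complex.exp_neg, Complex.exp_log h0, Complex.exp_zero, inv_one, mul_one] at a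
      rw [← a]
      congr 2
      field_simp
  · rintro ⟨F, hF, ⟨hi, -⟩, h0⟩
    have e : ∀ x y : E, x 0 * x 1 = 0 → y 0 * y 1 = 0 → F x 1 = F y 1 → x = y := by
      intro x y hx hy h
      refine hi ?_
      ext i
      fin_cases i
      · exact (h0 x).trans (hx.trans (hy.symm.trans (h0 y).symm))
      · exact h
    have g1 := near (g := fun w => F (pt w 0) 1)
      ((hd 1).comp (hF.comp (pt_diff differentiable_id (differentiable_const 0))))
      fun a b h => by simpa using congrArg (· 0) (e _ _ (by simp) (by simp) h)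
    have g2 := near (g := fun w => F (pt 0 w) 1)
      ((hd 1).comp (hF.comp (pt_diff (differentiable_const 0) differentiable_id)))
      fun a b h => by simpa using congrArg (· 1) (e _ _ (by simp) (by simp) h)
    obtain ⟨v, ⟨⟨a, ha⟩, ⟨b, hb⟩⟩, hv⟩ := Filter.nonempty_of_mem
      (inter_mem (nhdsWithin_le_nhds (s := {F (pt 0 0) 1}ᶜ) (inter_mem g1 g2)) self_mem_nhdsWithin)
    have h := congrArg (· 0) (e _ _ (by simp) (by simp) (ha.trans hb.symm))
    simp only [pt0] at h
    exact hv (by rw [← ha, h]; rfl)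

end Pool.Agent.Results.MP_cc4673_an.AtomNotCoord
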